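import Pool.Agent.Helper18.EW.Goals

/-! Packet EW-GA (project EW of helper18): unit steps. -/

set_option autoImplicit false

namespace Pool.Agent.Helper15.EW

open Finset Pool.Agent.Helper18.EW

theorem term_anti (μ e P Q : ℕ) (h : P ≤ Q) : μ - Q / e ≤ μ - P / e :=
  Nat.sub_le_sub_left (Nat.div_le_div_right h) μ

theorem term_step (μ e P : ℕ) :
    μ - P / e ≤ (μ - (P + 1) / e) + (if e ∣ P + 1 ∧ (P + 1) / e ≤ μ then 1 else 0) := by
  rw [Nat.succ_div]
  by_cases h : e ∣ P + 1
  · simp only [h, if_true, true_and]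
    split_ifs with h2
    · omega
    · omega
  · simp only [h, if_false, false_and]
    omega

theorem goalGA : GoalGA := by
  intro μ k e P0 g he hne hP0 hS0 hg
  let S : ℕ → ℕ := fun P => ∑ i ∈ range k, (μ - P / e i)
  have hanti : ∀ P Q, P ≤ Q → S Q ≤ S P := fun P Q h =>
    Finset.sum_le_sum fun i _ => term_anti μ (e i) P Q h
  have hstep : ∀ P, S P ≤ S (P + 1) + 1 := by
    intro P
    have h1 : S P ≤ ∑ i ∈ range k, ((μ - (P + 1) / e i) +
        (if e i ∣ P + 1 ∧ (P + 1) / e i ≤ μ then 1 else 0)) :=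
      Finset.sum_le_sum fun i _ => term_step μ (e i) P
    rw [Finset.sum_add_distrib] at h1
    have h2 : ∑ i ∈ range k, (if e i ∣ P + 1 ∧ (P + 1) / e i ≤ μ then 1 else 0) ≤ 1 := by
      rw [← Finset.card_filter, Finset.card_le_one]
      intro i hi j hj
      rw [Finset.mem_filter, Finset.mem_range] at hi hj
      by_contra hij
      obtain ⟨hik, ⟨a, ha⟩, ha2⟩ := hi
      obtain ⟨hjk, ⟨c, hc⟩, hc2⟩ := hj
      have hei := (he i hik).1
      have hej := (he j hjk).1
      rw [ha, Nat.mul_div_cancel_left _ hei] at ha2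
      rw [hc, Nat.mul_div_cancel_left _ hej] at hc2
      have ha1 : 1 ≤ a := by
        rcases Nat.eq_zero_or_pos a with h | h
        · subst h; simp at ha
        · exact h
      have hc1 : 1 ≤ c := by
        rcases Nat.eq_zero_or_pos c with h | h
        · subst h; simp at hc
        · exact h
      exact hne i hik j hjk hij a c ha1 ha2 hc1 hc2 (by rw [mul_comm a, mul_comm c, ← ha, ← hc])
    exact h1.trans (Nat.add_le_add_left h2 _)
  have hex : ∃ P, S P ≤ g := ⟨P0, hS0⟩
  classical
  let P' := Nat.find hex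
  have hP'g : S P' ≤ g := Nat.find_spec hex
  have hP'le : P' ≤ P0 := Nat.find_min' hex hS0
  have hS00 : S 0 = k * μ := by simp [S]
  have hP'1 : 1 ≤ P' := by
    rcases Nat.eq_zero_or_pos P' with h | h
    · rw [h, hS00] at hP'g
      omega
    · exact h
  have hprev : g < S (P' - 1) := by
    have := Nat.find_min hex (m := P' - 1) (by change P' - 1 < P'; omega)
    omega
  have hs := hstep (P' - 1)
  rw [Nat.sub_add_cancel hP'1] at hs
  have hSeq : S P' = g := by omega
  -- some `e i` divides `P'`
  have hdiv : ∃ i < k, e i ∣ P' := by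
    by_contra hcon
    push Not at hcon
    have : S (P' - 1) = S P' := by
      apply Finset.sum_congr rfl
      intro i hi
      have h1 := hcon i (Finset.mem_range.1 hi)
      have h2 : P' / e i = (P' - 1) / e i := by
        conv_lhs => rw [← Nat.sub_add_cancel hP'1]
        rw [Nat.succ_div, Nat.sub_add_cancel hP'1, if_neg h1, add_zero]
      rw [h2]
    omega
  obtain ⟨i, hi, hid⟩ := hdiv
  have heven : 2 ∣ P' := (he i hi).2.trans hid
  obtain ⟨p0, hp0⟩ := hP0
  obtain ⟨p1, hp1⟩ := heven
  refine ⟨P' + 1, ⟨p1, by omega⟩, by omega, ?_⟩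
  have : S (P' + 1) = S P' := by
    apply Finset.sum_congr rfl
    intro j hj
    have h1 := (he j (Finset.mem_range.1 hj)).2
    have h2 : ¬ e j ∣ P' + 1 := by
      intro h
      obtain ⟨z, hz⟩ := h1.trans h
      omega
    rw [Nat.succ_div, if_neg h2, add_zero]
  exact this.trans hSeq

end Pool.Agent.Helper15.EW
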